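import Pool.Agent.Work.MP_880652_co.Hedge.Link

set_option autoImplicit false
open Classical

namespace Pool.Agent.Results.MP_880652_co.ForestUnimodal

/-- The agreement counts of a finite poset whose comparability graph has no cycle are unimodal. -/
theorem result :
    ∀ (α : Type) [Fintype α] [PartialOrder α] (a : ℕ → ℕ),
      (SimpleGraph.fromRel (fun x y : α => x < y)).IsAcyclic →
      (∀ i : ℕ, a i =
        (Finset.univ.filter (fun σ : α ≃ Fin (Fintype.card α) =>
          (Finset.univ.filter (fun p : α × α => p.1 < p.2 ∧ σ p.1 < σ p.2)).card = i)).card) →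
      ∃ m : ℕ,
        (∀ i j : ℕ, i ≤ j → j ≤ m → a i ≤ a j) ∧
        (∀ i j : ℕ, m ≤ i → i ≤ j →
          j ≤ (Finset.univ.filter (fun p : α × α => p.1 < p.2)).card → a j ≤ a i) := by
  intro α _ _ a hac ha
  refine ⟨(Finset.univ.filter (fun p : α × α => p.1 < p.2)).card / 2, ?_, ?_⟩
  · intro i j h1 h2
    rw [ha, ha]
    refine Pool.Agent.Work.MP_880652_co.Hedge.count_mono hac j i ?_
    rw [abs_of_nonpos (by omega), abs_of_nonpos (by omega)]
    omega
  · intro i j h1 h2 _
    rw [ha, ha]
    refine Pool.Agent.Work.MP_880652_co.Hedge.count_mono hac i j ?_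
    rcases eq_or_lt_of_le h2 with rfl | h3
    · exact le_rfl
    · rw [abs_le, abs_of_nonneg (by omega)]
      omega

end Pool.Agent.Results.MP_880652_co.ForestUnimodal
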